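import Mathlib

set_option autoImplicit false

open Filter Topology

namespace Pool.Agent.Results.MP_f087b4_co.NoCommonShift

section Definitions

universe u

variable {G : Type u} [Group G]

open Classical in
/-- `Φ` is a left Folner sequence: its members are nonempty finite sets and
`|gΦ_N ∩ Φ_N| / |Φ_N| → 1` for every `g`. -/
def IsLeftFolner (Φ : ℕ → Finset G) : Prop :=
  (∀ N, (Φ N).Nonempty) ∧ ∀ g : G, Tendsto
    (fun N => ((((Φ N).image (fun x => g * x)) ∩ Φ N).card : ℝ) / (Φ N).card) atTop (𝓝 1)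

open Classical in
/-- `Φ` is a right Folner sequence: its members are nonempty finite sets and
`|Φ_N g ∩ Φ_N| / |Φ_N| → 1` for every `g`. -/
def IsRightFolner (Φ : ℕ → Finset G) : Prop :=
  (∀ N, (Φ N).Nonempty) ∧ ∀ g : G, Tendsto
    (fun N => ((((Φ N).image (fun x => x * g)) ∩ Φ N).card : ℝ) / (Φ N).card) atTop (𝓝 1)

open Classical in
/-- the upper density `limsup_N |A ∩ Φ_N| / |Φ_N|` -/
noncomputable def upperDensity (Φ : ℕ → Finset G) (A : Set G) : ℝ :=
  limsup (fun N => (((Φ N).filter (fun x => x ∈ A)).card : ℝ) / (Φ N).card) atTop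

/-- positive upper Banach density: positive upper density along some two-sided Folner sequence -/
def PosUpperBanachDensity (A : Set G) : Prop :=
  ∃ Φ : ℕ → Finset G, IsLeftFolner Φ ∧ IsRightFolner Φ ∧ 0 < upperDensity Φ A

/-- square absolutely continuous groups -/
def SquareAbsCont (G : Type u) [Group G] : Prop :=
  ∃ Φ Ψ : ℕ → Finset G, IsLeftFolner Φ ∧ IsLeftFolner Ψ ∧
    ∀ ε : ℝ, 0 < ε → ∃ δ : ℝ, 0 < δ ∧ ∀ u : G → ℝ, (∀ g, 0 ≤ u g ∧ u g ≤ 1) →
      limsup (fun N => (∑ g ∈ Φ N, u g) / (Φ N).card) atTop < δ →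
      limsup (fun N => (∑ g ∈ Ψ N, u (g ^ 2)) / (Ψ N).card) atTop < ε

/-- `B ⊙ B = {b c : b, c ∈ B, b ≠ c}` -/
def odot (B : Set G) : Set G := {x | ∃ b ∈ B, ∃ c ∈ B, b ≠ c ∧ x = b * c}

/-- the two-sided shift `t⁻¹ A r⁻¹ = {t⁻¹ a r⁻¹ : a ∈ A}` -/
def shift (t r : G) (A : Set G) : Set G := (fun a => t⁻¹ * a * r⁻¹) '' A

end Definitions

/-! ### The group -/

/-- the block `k` of the first component: the vector space `F_3^(k+1)` -/
abbrev U (k : ℕ) : Type := Fin (k + 1) → ZMod 3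

/-- the block `k` of the second component: `(k+1) × (k+2)` matrices over `F_3` -/
abbrev T (k : ℕ) : Type := Matrix (Fin (k + 1)) (Fin (k + 2)) (ZMod 3)

/-- pairs `(v, t)` with `v ∈ Π U k` and `t ∈ Π T k` -/
@[ext] structure Hat where
  v : ∀ k, U k
  t : ∀ k, T k

namespace Hat

instance : Mul Hat :=
  ⟨fun a b => ⟨fun k => a.v k + b.v k,
    fun k => a.t k + b.t k + Matrix.vecMulVec (a.v k) (b.v (k + 1))⟩⟩
instance : One Hat := ⟨⟨fun _ => 0, fun _ => 0⟩⟩
instance : Inv Hat :=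
  ⟨fun a => ⟨fun k => - a.v k, fun k => - a.t k + Matrix.vecMulVec (a.v k) (a.v (k + 1))⟩⟩

@[simp] theorem mul_v (a b : Hat) (k : ℕ) : (a * b).v k = a.v k + b.v k := rfl
@[simp] theorem mul_t (a b : Hat) (k : ℕ) :
    (a * b).t k = a.t k + b.t k + Matrix.vecMulVec (a.v k) (b.v (k + 1)) := rfl
@[simp] theorem one_v (k : ℕ) : (1 : Hat).v k = 0 := rfl
@[simp] theorem one_t (k : ℕ) : (1 : Hat).t k = 0 := rfl
@[simp] theorem inv_v (a : Hat) (k : ℕ) : (a⁻¹).v k = - a.v k := rfl
@[simp] theorem inv_t (a : Hat) (k : ℕ) :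
    (a⁻¹).t k = - a.t k + Matrix.vecMulVec (a.v k) (a.v (k + 1)) := rfl

theorem ext' {a b : Hat} (h1 : ∀ k, a.v k = b.v k) (h2 : ∀ k, a.t k = b.t k) : a = b :=
  Hat.ext (funext h1) (funext h2)

instance : Group Hat :=
  Group.ofLeftAxioms
    (by
      intro a b c
      refine ext' (fun k => ?_) (fun k => ?_)
      · simp [add_assoc]
      · ext i j
        simp only [mul_t, mul_v, Matrix.add_apply, Matrix.vecMulVec_apply, Pi.add_apply]
        ring)
    (by
      intro a
      refine ext' (fun k => ?_) (fun k => ?_)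
      · simp
      · ext i j
        simp)
    (by
      intro a
      refine ext' (fun k => ?_) (fun k => ?_)
      · simp
      · ext i j
        simp [Matrix.vecMulVec_apply])

theorem sq_eq_inv (a : Hat) : a ^ 2 = a⁻¹ := by
  have h3 : (3 : ZMod 3) = 0 := by decide
  rw [pow_two]
  refine ext' (fun k => ?_) (fun k => ?_)
  · ext i
    simp only [mul_v, inv_v, Pi.add_apply, Pi.neg_apply]
    linear_combination (a.v k i) * h3
  · ext i j
    simp only [mul_t, inv_t, Matrix.add_apply, Matrix.vecMulVec_apply, Matrix.neg_apply]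
    linear_combination (a.t k i j) * h3

end Hat

/-- the group `G`: pairs `(v, t)` with only finitely many nonzero blocks -/
def Fin0 : Subgroup Hat where
  carrier := {a | ∃ N, ∀ k, N ≤ k → a.v k = 0 ∧ a.t k = 0}
  mul_mem' := by
    rintro a b ⟨N, hN⟩ ⟨M, hM⟩
    refine ⟨max N M, fun k hk => ?_⟩
    have h1 := hN k (le_trans (le_max_left _ _) hk)
    have h2 := hM k (le_trans (le_max_right _ _) hk)
    refine ⟨?_, ?_⟩
    · simp [h1.1, h2.1]
    · ext i j
      simp [h1.1, h1.2, h2.2]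
  one_mem' := ⟨0, fun k _ => ⟨rfl, rfl⟩⟩
  inv_mem' := by
    rintro a ⟨N, hN⟩
    refine ⟨N, fun k hk => ?_⟩
    have h1 := hN k hk
    refine ⟨?_, ?_⟩
    · simp [h1.1]
    · ext i j
      simp [h1.1, h1.2]

/-- the group as a type -/
abbrev Gp : Type := ↥Fin0

/-- `g` lies in the finite subgroup of level `N` -/
def Lev (N : ℕ) (g : Gp) : Prop := (∀ k, N < k → g.1.v k = 0) ∧ (∀ k, N ≤ k → g.1.t k = 0)

theorem Lev.mono {N M : ℕ} (h : N ≤ M) {g : Gp} (hg : Lev N g) : Lev M g :=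
  ⟨fun k hk => hg.1 k (by omega), fun k hk => hg.2 k (by omega)⟩

theorem exists_lev (g : Gp) : ∃ N, Lev N g := by
  obtain ⟨N, hN⟩ := g.2
  exact ⟨N, fun k hk => (hN k hk.le).1, fun k hk => (hN k hk).2⟩

theorem Lev.mul {N : ℕ} {g h : Gp} (hg : Lev N g) (hh : Lev N h) : Lev N (g * h) := by
  refine ⟨fun k hk => ?_, fun k hk => ?_⟩
  · change g.1.v k + h.1.v k = 0
    rw [hg.1 k hk, hh.1 k hk, add_zero]
  · change g.1.t k + h.1.t k + Matrix.vecMulVec (g.1.v k) (h.1.v (k + 1)) = 0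
    rw [hg.2 k hk, hh.2 k hk, hh.1 (k + 1) (by omega)]
    ext i j
    simp [Matrix.vecMulVec_apply]

theorem Lev.inv {N : ℕ} {g : Gp} (hg : Lev N g) : Lev N g⁻¹ := by
  refine ⟨fun k hk => ?_, fun k hk => ?_⟩
  · change - g.1.v k = 0
    rw [hg.1 k hk, neg_zero]
  · change - g.1.t k + Matrix.vecMulVec (g.1.v k) (g.1.v (k + 1)) = 0
    rw [hg.2 k hk, hg.1 (k + 1) (by omega)]
    ext i j
    simp [Matrix.vecMulVec_apply]

/-- extension by zero -/
def E (N : ℕ) (c : (∀ k : Fin (N + 1), U k) × (∀ k : Fin N, T k)) : Gp :=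
  ⟨⟨fun k => if h : k < N + 1 then c.1 ⟨k, h⟩ else 0,
    fun k => if h : k < N then c.2 ⟨k, h⟩ else 0⟩,
    ⟨N + 1, fun k hk => ⟨by simp only; rw [dif_neg (by omega)],
      by simp only; rw [dif_neg (by omega)]⟩⟩⟩

theorem E_injective (N : ℕ) : Function.Injective (E N) := by
  rintro ⟨a, b⟩ ⟨a', b'⟩ h
  have h0 := congrArg Subtype.val h
  have h1 := congrArg Hat.v h0
  have h2 := congrArg Hat.t h0
  refine Prod.ext (funext fun k => ?_) (funext fun k => ?_)
  · have := congrFun h1 k.1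
    simp only [E, dif_pos k.2] at this
    exact this
  · have := congrFun h2 k.1
    simp only [E, dif_pos k.2] at this
    exact this

theorem E_lev (N : ℕ) (c : (∀ k : Fin (N + 1), U k) × (∀ k : Fin N, T k)) : Lev N (E N c) := by
  refine ⟨fun k hk => ?_, fun k hk => ?_⟩
  · simp only [E]; rw [dif_neg (by omega)]
  · simp only [E]; rw [dif_neg (by omega)]

theorem exists_E {N : ℕ} {g : Gp} (hg : Lev N g) : ∃ c, E N c = g := by
  refine ⟨(fun k => g.1.v k, fun k => g.1.t k), ?_⟩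
  apply Subtype.ext
  refine Hat.ext' (fun k => ?_) (fun k => ?_)
  · simp only [E]
    split_ifs with h
    · rfl
    · exact (hg.1 k (by omega)).symm
  · simp only [E]
    split_ifs with h
    · rfl
    · exact (hg.2 k (by omega)).symm

/-- the Folner sequence of finite subgroups -/
noncomputable def Φ (N : ℕ) : Finset Gp := Finset.univ.map ⟨E N, E_injective N⟩

theorem mem_Φ {N : ℕ} {g : Gp} : g ∈ Φ N ↔ Lev N g := by
  unfold Φ
  simp only [Finset.mem_map, Finset.mem_univ, true_and, Function.Embedding.coeFn_mk]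
  exact ⟨fun ⟨c, hc⟩ => hc ▸ E_lev N c, exists_E⟩

theorem Φ_nonempty (N : ℕ) : (Φ N).Nonempty :=
  ⟨1, mem_Φ.2 ⟨fun _ _ => rfl, fun _ _ => rfl⟩⟩

instance : Countable Gp := by
  have h : (Set.univ : Set Gp) = ⋃ N, (Φ N : Set Gp) := by
    ext g
    simp only [Set.mem_univ, Set.mem_iUnion, Finset.mem_coe, true_iff]
    obtain ⟨N, hN⟩ := exists_lev g
    exact ⟨N, mem_Φ.2 hN⟩
  have h2 : (Set.univ : Set Gp).Countable := by
    rw [h]
    exact Set.countable_iUnion (fun N => (Φ N).countable_toSet)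
  exact Set.countable_univ_iff.1 h2

theorem card_left [DecidableEq Gp] {N : ℕ} {g : Gp} (hg : Lev N g) :
    ((((Φ N).image (fun x => g * x)) ∩ Φ N).card : ℝ) / (Φ N).card = 1 := by
  have h1 : (Φ N).image (fun x => g * x) ⊆ Φ N := by
    intro y hy
    obtain ⟨x, hx, rfl⟩ := Finset.mem_image.1 hy
    exact mem_Φ.2 (hg.mul (mem_Φ.1 hx))
  have h2 : ((Φ N).image (fun x => g * x)).card = (Φ N).card :=
    Finset.card_image_of_injective _ (mul_right_injective g)
  rw [Finset.inter_eq_left.2 h1, h2, div_self]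
  have := (Φ_nonempty N).card_pos
  positivity

theorem card_right [DecidableEq Gp] {N : ℕ} {g : Gp} (hg : Lev N g) :
    ((((Φ N).image (fun x => x * g)) ∩ Φ N).card : ℝ) / (Φ N).card = 1 := by
  have h1 : (Φ N).image (fun x => x * g) ⊆ Φ N := by
    intro y hy
    obtain ⟨x, hx, rfl⟩ := Finset.mem_image.1 hy
    exact mem_Φ.2 ((mem_Φ.1 hx).mul hg)
  have h2 : ((Φ N).image (fun x => x * g)).card = (Φ N).card :=
    Finset.card_image_of_injective _ (mul_left_injective g)
  rw [Finset.inter_eq_left.2 h1, h2, div_self]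
  have := (Φ_nonempty N).card_pos
  positivity

theorem Φ_left : IsLeftFolner Φ := by
  refine ⟨Φ_nonempty, fun g => ?_⟩
  obtain ⟨M, hM⟩ := exists_lev g
  refine tendsto_const_nhds.congr' ?_
  filter_upwards [eventually_ge_atTop M] with N hN
  exact (@card_left (fun a b => Classical.propDecidable (a = b)) N g (hM.mono hN)).symm

theorem Φ_right : IsRightFolner Φ := by
  refine ⟨Φ_nonempty, fun g => ?_⟩
  obtain ⟨M, hM⟩ := exists_lev g
  refine tendsto_const_nhds.congr' ?_
  filter_upwards [eventually_ge_atTop M] with N hN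
  exact (@card_right (fun a b => Classical.propDecidable (a = b)) N g (hM.mono hN)).symm

theorem sq_eq_inv (g : Gp) : g ^ 2 = g⁻¹ := Subtype.ext (Hat.sq_eq_inv g.1)

theorem sac : SquareAbsCont Gp := by
  refine ⟨Φ, Φ, Φ_left, Φ_left, fun ε hε => ⟨ε, hε, fun u _ hu => ?_⟩⟩
  have h : ∀ N, ∑ g ∈ Φ N, u (g ^ 2) = ∑ g ∈ Φ N, u g := by
    intro N
    refine Finset.sum_nbij' (fun g => g⁻¹) (fun g => g⁻¹) ?_ ?_ ?_ ?_ ?_
    · exact fun g hg => mem_Φ.2 (mem_Φ.1 hg).inv
    · exact fun g hg => mem_Φ.2 (mem_Φ.1 hg).inv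
    · exact fun g _ => inv_inv g
    · exact fun g _ => inv_inv g
    · exact fun g _ => by rw [sq_eq_inv]
  simp only [h]
  exact hu

/-! ### The set -/

/-- a vector `ℓ` with `ℓ · u = 1` for nonzero `u` -/
theorem exists_dual {n : ℕ} (u : Fin n → ZMod 3) (hu : u ≠ 0) : ∃ l : Fin n → ZMod 3, l ⬝ᵥ u = 1 := by
  obtain ⟨i, hi⟩ := Function.ne_iff.1 hu
  refine ⟨Pi.single i (u i), ?_⟩
  rw [single_dotProduct]
  have : ∀ x : ZMod 3, x ≠ 0 → x * x = 1 := by decide
  exact this _ hi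

open Classical in
/-- a chosen vector `ℓ` with `ℓ · u = 1` -/
noncomputable def dual {n : ℕ} (u : Fin n → ZMod 3) : Fin n → ZMod 3 :=
  if h : u ≠ 0 then (exists_dual u h).choose else 0

theorem dual_spec {n : ℕ} (u : Fin n → ZMod 3) (hu : u ≠ 0) : dual u ⬝ᵥ u = 1 := by
  unfold dual
  rw [dif_pos hu]
  exact (exists_dual u hu).choose_spec

/-- the functional `Ω_v(t)`, a sum over the links between consecutive blocks up to `r` -/
noncomputable def Om (r : ℕ) (v : ∀ k, U k) (t : ∀ k, T k) : ZMod 3 :=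
  ∑ k ∈ Finset.range r, dual (v k) ⬝ᵥ (t k).mulVec (dual (v (k + 1)))

/-- the set `A`: all `(v, t)` of some exact level `r`, such that all blocks `v_0, ..., v_r` are
nonzero, and `Ω_v(t) = 0` -/
def A : Set Gp := {g | ∃ r, Lev r g ∧ (∀ k, k ≤ r → g.1.v k ≠ 0) ∧ Om r g.1.v g.1.t = 0}

/-! ### No common shift -/

theorem dot_vecMulVec {m n : ℕ} (l a : Fin m → ZMod 3) (b c : Fin n → ZMod 3) :
    l ⬝ᵥ (Matrix.vecMulVec a b).mulVec c = (l ⬝ᵥ a) * (c ⬝ᵥ b) := by
  have h : (Matrix.vecMulVec a b).mulVec c = (c ⬝ᵥ b) • a := by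
    ext i
    simp only [Matrix.mulVec, dotProduct, Matrix.vecMulVec_apply, Pi.smul_apply, smul_eq_mul,
      Finset.sum_mul]
    exact Finset.sum_congr rfl (fun j _ => by ring)
  rw [h, dotProduct_smul, smul_eq_mul, mul_comm]

/-- `Ω_v` of a product: the cross term is `Σ_k s_k(a) s_{k+1}(b)` with `s_k(w) = ℓ_k · w_k` -/
theorem Om_mul (r : ℕ) (v : ∀ k, U k) (a b : Hat) :
    Om r v (a * b).t = Om r v a.t + Om r v b.t +
      ∑ k ∈ Finset.range r, (dual (v k) ⬝ᵥ a.v k) * (dual (v (k + 1)) ⬝ᵥ b.v (k + 1)) := by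
  unfold Om
  rw [← Finset.sum_add_distrib, ← Finset.sum_add_distrib]
  refine Finset.sum_congr rfl (fun k _ => ?_)
  rw [Hat.mul_t, Matrix.add_mulVec, Matrix.add_mulVec, dotProduct_add, dotProduct_add,
    dot_vecMulVec]

/-- the arithmetic identity behind the example -/
theorem chain (r m : ℕ) (B X Z : ℕ → ZMod 3) (h1 : ∀ k, k ≤ r → B k + X k + Z k = 1)
    (h2 : B r = 0) (h3 : X r = 0) (h4 : ∀ k, k ≤ m + 1 → B k = Z k) (h5 : ∀ k, m < k → X k = 0)
    (_ : m + 1 < r) :
    ∑ k ∈ Finset.range r, (B k * X (k + 1) + (B k + X k) * Z (k + 1)) -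
      ∑ k ∈ Finset.range r, (Z k * X (k + 1) + (Z k + X k) * B (k + 1)) = 2 := by
  have h30 : (3 : ZMod 3) = 0 := by decide
  rw [← Finset.sum_sub_distrib]
  have key : ∀ k ∈ Finset.range r, (B k * X (k + 1) + (B k + X k) * Z (k + 1)) -
      (Z k * X (k + 1) + (Z k + X k) * B (k + 1)) =
      (B k - X k) - (B (k + 1) - X (k + 1)) := by
    intro k hk
    have hk' : k < r := Finset.mem_range.1 hk
    have e1 := h1 k hk'.le
    have e2 := h1 (k + 1) hk'
    have z1 : Z k = 1 - B k - X k := by linear_combination e1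
    have z2 : Z (k + 1) = 1 - B (k + 1) - X (k + 1) := by linear_combination e2
    by_cases hm : k ≤ m
    · have f1 : B k = 2 + X k := by
        have := h4 k (by omega)
        linear_combination (-this) + (-1 : ZMod 3) * e1 + (B k - 1) * h30
      have f2 : B (k + 1) = 2 + X (k + 1) := by
        have := h4 (k + 1) (by omega)
        linear_combination (-this) + (-1 : ZMod 3) * e2 + (B (k + 1) - 1) * h30
      rw [z1, z2, f1, f2]
      ring
    · have g1 : X k = 0 := h5 k (by omega)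
      have g2 : X (k + 1) = 0 := h5 (k + 1) (by omega)
      rw [z1, z2, g1, g2]
      ring
  rw [Finset.sum_congr rfl key, Finset.sum_range_sub', h2, h3]
  have f0 : B 0 = 2 + X 0 := by
    have := h4 0 (by omega)
    have e1 := h1 0 (by omega)
    linear_combination (-this) + (-1 : ZMod 3) * e1 + (B 0 - 1) * h30
  rw [f0]
  ring

theorem no_pair {b x z : Gp} {m M : ℕ} (hmM : m + 1 ≤ M) (hx : Lev m x) (hb : Lev M b)
    (hz : ∃ k, M < k ∧ z.1.v k ≠ 0) (hc : ∀ k, k ≤ m + 1 → b.1.v k = z.1.v k)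
    (h1 : b * x * z ∈ A) (h2 : z * x * b ∈ A) : False := by
  obtain ⟨r, ⟨hr1, _⟩, hr2, hr3⟩ := h1
  obtain ⟨r', ⟨hr1', _⟩, hr2', hr3'⟩ := h2
  have v1 : ∀ k, (b * x * z).1.v k = b.1.v k + x.1.v k + z.1.v k := fun k => rfl
  have v2 : ∀ k, (z * x * b).1.v k = b.1.v k + x.1.v k + z.1.v k := by
    intro k
    change z.1.v k + x.1.v k + b.1.v k = _
    abel
  have vv : (z * x * b).1.v = (b * x * z).1.v := funext (fun k => by rw [v1, v2])
  have hrr : r' = r := by
    apply le_antisymm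
    · by_contra hlt
      have := hr2' r' le_rfl
      rw [vv] at this
      exact this (hr1 r' (by omega))
    · by_contra hlt
      have := hr2 r le_rfl
      rw [← vv] at this
      exact this (hr1' r (by omega))
  subst hrr
  rw [vv] at hr3'
  have hMr : M < r' := by
    obtain ⟨k, hk, hk2⟩ := hz
    by_contra hle
    have h0 := hr1 k (by omega)
    rw [v1, hb.1 k hk, hx.1 k (by omega), zero_add, zero_add] at h0
    exact hk2 h0
  set v := (b * x * z).1.v with hv
  have hch := chain r' m (fun k => dual (v k) ⬝ᵥ b.1.v k) (fun k => dual (v k) ⬝ᵥ x.1.v k)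
    (fun k => dual (v k) ⬝ᵥ z.1.v k)
    (fun k hk => by
      rw [← dotProduct_add, ← dotProduct_add, ← v1 k]
      exact dual_spec _ (hr2 k hk))
    (by rw [hb.1 r' hMr, dotProduct_zero])
    (by rw [hx.1 r' (by omega), dotProduct_zero])
    (fun k hk => by rw [hc k hk])
    (fun k hk => by rw [hx.1 k hk, dotProduct_zero])
    (by omega)
  have e1 : Om r' v (b * x * z).1.t = Om r' v (b.1 * x.1).t + Om r' v z.1.t + _ :=
    Om_mul r' v (b.1 * x.1) z.1
  rw [Om_mul] at e1
  have e2 : Om r' v (z * x * b).1.t = Om r' v (z.1 * x.1).t + Om r' v b.1.t + _ :=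
    Om_mul r' v (z.1 * x.1) b.1
  rw [Om_mul] at e2
  rw [hr3] at e1
  rw [hr3'] at e2
  simp only [Hat.mul_v, dotProduct_add] at e1 e2
  rw [Finset.sum_add_distrib, Finset.sum_add_distrib] at hch
  have h20 : (2 : ZMod 3) ≠ 0 := by decide
  apply h20
  rw [← hch]
  linear_combination (-1 : ZMod 3) * e1 + e2

theorem no_infinite (B : Set Gp) (hB : B.Infinite) (t r : Gp) : ¬ odot B ⊆ shift t r A := by
  intro hsub
  have hmem : ∀ b ∈ B, ∀ c ∈ B, b ≠ c → t * (b * c) * r ∈ A := by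
    intro b hb c hc hbc
    obtain ⟨a, ha, hae⟩ := hsub ⟨b, hb, c, hc, hbc, rfl⟩
    simp only at hae
    rw [← hae]
    have : t * (t⁻¹ * a * r⁻¹) * r = a := by group
    rw [this]
    exact ha
  set x : Gp := r⁻¹ * t⁻¹ with hx
  set S : Set Gp := (fun b => t * b * r) '' B with hS
  have hinj : Function.Injective (fun b : Gp => t * b * r) := by
    intro b c h
    simpa using h
  have hSinf : S.Infinite := hB.image hinj.injOn
  have hSA : ∀ b ∈ S, ∀ c ∈ S, b ≠ c → b * x * c ∈ A := by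
    rintro _ ⟨b, hb, rfl⟩ _ ⟨c, hc, rfl⟩ hbc
    have : (t * b * r) * x * (t * c * r) = t * (b * c) * r := by
      rw [hx]; group
    simp only
    rw [this]
    exact hmem b hb c hc (fun h => hbc (by rw [h]))
  obtain ⟨m, hm⟩ := exists_lev x
  have : Infinite ↥S := hSinf.to_subtype
  obtain ⟨c, hc⟩ := Finite.exists_infinite_fiber
    (fun g : ↥S => (fun k : Fin (m + 2) => g.1.1.v k : ∀ k : Fin (m + 2), U k))
  obtain ⟨⟨b, hbS⟩, hb⟩ := hc.nonempty
  obtain ⟨M0, hM0⟩ := exists_lev b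
  have hM : Lev (max M0 (m + 1)) b := hM0.mono (le_max_left _ _)
  have hmM : m + 1 ≤ max M0 (m + 1) := le_max_right _ _
  generalize max M0 (m + 1) = M at hM hmM
  by_cases hex : ∃ z : ↥S, (fun k : Fin (m + 2) => z.1.1.v k : ∀ k : Fin (m + 2), U k) = c ∧
      z.1 ≠ b ∧ ∃ k, M < k ∧ z.1.1.v k ≠ 0
  · obtain ⟨⟨z, hzS⟩, hz1, hz2, hz3⟩ := hex
    refine no_pair hmM hm hM hz3 (fun k hk => ?_) (hSA b hbS z hzS hz2.symm) (hSA z hzS b hbS hz2)
    have e1 := congrFun hb (⟨k, by omega⟩ : Fin (m + 2))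
    have e2 := congrFun hz1 (⟨k, by omega⟩ : Fin (m + 2))
    exact e1.trans e2.symm
  · push Not at hex
    -- all `b x z` lie in a finite set
    have hfin : ((fun g : ↥S => (fun k : Fin (m + 2) => g.1.1.v k : ∀ k : Fin (m + 2), U k)) ⁻¹'
        {c} : Set ↥S).Finite := by
      refine Set.Finite.subset (Set.Finite.union (Set.finite_singleton (⟨b, hbS⟩ : ↥S))
        (Set.Finite.preimage (f := fun g : ↥S => b * x * g.1) ?_ (Φ M).finite_toSet)) ?_
      · intro g _ h _ hgh
        apply Subtype.ext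
        exact mul_left_cancel hgh
      · intro z hz
        by_cases hzb : z.1 = b
        · left
          exact Subtype.ext hzb
        · right
          have hv := hex z hz hzb
          obtain ⟨r', ⟨hr1, hr1'⟩, hr2, _⟩ := hSA b hbS z.1 z.2 (fun h => hzb h.symm)
          have hle : r' ≤ M := by
            by_contra hlt
            apply hr2 r' le_rfl
            change b.1.v r' + x.1.v r' + z.1.1.v r' = 0
            rw [hM.1 r' (by omega), hm.1 r' (by omega), hv r' (by omega)]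
            simp
          exact mem_Φ.2 (Lev.mono hle ⟨hr1, hr1'⟩)
    exact hc.not_finite hfin.to_subtype

/-! ### Density -/

/-- shift the second component at block `0` by `j (v_0 ⊗ v_1)` -/
def sig (j : ZMod 3) (g : Gp) : Gp :=
  ⟨⟨g.1.v, fun k => g.1.t k + (if k = 0 then j else 0) • Matrix.vecMulVec (g.1.v k) (g.1.v (k + 1))⟩,
    by
      obtain ⟨N, hN⟩ := g.2
      refine ⟨N + 1, fun k hk => ⟨(hN k (by omega)).1, ?_⟩⟩
      simp only
      rw [if_neg (by omega), zero_smul, (hN k (by omega)).2, add_zero]⟩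

theorem sig_lev (j : ZMod 3) {g : Gp} {N : ℕ} (hg : Lev (N + 1) g) : Lev (N + 1) (sig j g) := by
  refine ⟨fun k hk => hg.1 k hk, fun k hk => ?_⟩
  change g.1.t k + (if k = 0 then j else 0) • Matrix.vecMulVec (g.1.v k) (g.1.v (k + 1)) = 0
  rw [if_neg (by omega), zero_smul, hg.2 k hk, add_zero]

theorem sig_Om (j : ZMod 3) {g : Gp} {N : ℕ} (h0 : g.1.v 0 ≠ 0) (h1 : g.1.v 1 ≠ 0) :
    Om (N + 1) (sig j g).1.v (sig j g).1.t = Om (N + 1) g.1.v g.1.t + j := by
  change Om (N + 1) g.1.v (fun k => g.1.t k +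
    (if k = 0 then j else 0) • Matrix.vecMulVec (g.1.v k) (g.1.v (k + 1))) = _
  unfold Om
  rw [Finset.sum_range_succ', Finset.sum_range_succ']
  simp only [Nat.add_eq_zero_iff, one_ne_zero, and_false, if_false, zero_smul, add_zero, if_true,
    Matrix.add_mulVec, Matrix.smul_mulVec, dotProduct_add, dotProduct_smul, dot_vecMulVec,
    smul_eq_mul, dual_spec _ h0]
  rw [dual_spec _ h1]
  ring

theorem sig_sig (i j : ZMod 3) (g : Gp) (h : i + j = 0) : sig i (sig j g) = g := by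
  apply Subtype.ext
  refine Hat.ext' (fun k => rfl) (fun k => ?_)
  change (g.1.t k + (if k = 0 then j else 0) • Matrix.vecMulVec (g.1.v k) (g.1.v (k + 1))) +
    (if k = 0 then i else 0) • Matrix.vecMulVec (g.1.v k) (g.1.v (k + 1)) = g.1.t k
  rw [add_assoc, ← add_smul]
  split_ifs with hk
  · rw [add_comm j i, h, zero_smul, add_zero]
  · rw [add_zero, zero_smul, add_zero]

open Classical in
/-- elements of level `N` all of whose blocks are nonzero -/
noncomputable def D (N : ℕ) : Finset Gp := (Φ N).filter (fun g => ∀ k, k ≤ N → g.1.v k ≠ 0)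

open Classical in
theorem card_D_le (N : ℕ) :
    (D (N + 1)).card ≤ 3 * ((Φ (N + 1)).filter (fun g => g ∈ A)).card := by
  have hsub : D (N + 1) ⊆ (Finset.univ : Finset (ZMod 3)).biUnion
      (fun j => ((Φ (N + 1)).filter (fun g => g ∈ A)).image (sig j)) := by
    intro g hg
    obtain ⟨hg1, hg2⟩ := Finset.mem_filter.1 hg
    have hl := mem_Φ.1 hg1
    rw [Finset.mem_biUnion]
    refine ⟨Om (N + 1) g.1.v g.1.t, Finset.mem_univ _, Finset.mem_image.2
      ⟨sig (- Om (N + 1) g.1.v g.1.t) g, ?_, sig_sig _ _ _ (by ring)⟩⟩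
    rw [Finset.mem_filter]
    refine ⟨mem_Φ.2 (sig_lev _ hl), N + 1, sig_lev _ hl, hg2, ?_⟩
    rw [sig_Om _ (hg2 0 (by omega)) (hg2 1 (by omega))]
    ring
  refine (Finset.card_le_card hsub).trans (Finset.card_biUnion_le.trans ?_)
  refine (Finset.sum_le_sum (fun j _ => Finset.card_image_le)).trans ?_
  simp [ZMod.card]

theorem card_Φ (N : ℕ) : ((Φ N).card : ℝ) =
    (∏ k ∈ Finset.range (N + 1), (3 : ℝ) ^ (k + 1)) * (Fintype.card (∀ k : Fin N, T k) : ℝ) := by
  unfold Φ
  rw [Finset.card_map, Finset.card_univ, Fintype.card_prod]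
  push_cast
  congr 1
  rw [Fintype.card_pi]
  push_cast
  rw [Finset.prod_range]
  refine Finset.prod_congr rfl (fun k _ => ?_)
  simp [ZMod.card]

open Classical in
theorem card_D (N : ℕ) : ((D N).card : ℝ) =
    (∏ k ∈ Finset.range (N + 1), ((3 : ℝ) ^ (k + 1) - 1)) *
      (Fintype.card (∀ k : Fin N, T k) : ℝ) := by
  have h : D N = ((Fintype.piFinset (fun k : Fin (N + 1) => (Finset.univ : Finset (U k)).erase 0)) ×ˢ
      (Finset.univ : Finset (∀ k : Fin N, T k))).map ⟨E N, E_injective N⟩ := by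
    ext g
    rw [D, Finset.mem_filter, mem_Φ, Finset.mem_map]
    constructor
    · rintro ⟨h1, h2⟩
      obtain ⟨c, hc⟩ := exists_E h1
      refine ⟨c, ?_, hc⟩
      rw [Finset.mem_product]
      refine ⟨?_, Finset.mem_univ _⟩
      rw [Fintype.mem_piFinset]
      intro k
      rw [Finset.mem_erase]
      refine ⟨?_, Finset.mem_univ _⟩
      have := h2 k (by omega)
      rw [← hc] at this
      simp only [E, dif_pos k.2] at this
      exact this
    · rintro ⟨c, hc, rfl⟩
      rw [Finset.mem_product, Fintype.mem_piFinset] at hc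
      refine ⟨E_lev N c, fun k hk => ?_⟩
      have := (Finset.mem_erase.1 (hc.1 ⟨k, by omega⟩)).1
      simp only [Function.Embedding.coeFn_mk, E]
      rw [dif_pos (by omega)]
      exact this
  rw [h, Finset.card_map, Finset.card_product, Fintype.card_piFinset, Finset.card_univ]
  push_cast
  congr 1
  rw [Finset.prod_range]
  refine Finset.prod_congr rfl (fun k _ => ?_)
  rw [Finset.card_erase_of_mem (Finset.mem_univ _), Finset.card_univ]
  have h3 : Fintype.card (U k) = 3 ^ (k.1 + 1) := by simp [ZMod.card]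
  rw [h3, Nat.cast_sub (Nat.one_le_pow _ _ (by norm_num))]
  push_cast
  ring

theorem prod_bound (n : ℕ) :
    (∏ k ∈ Finset.range n, (3 : ℝ) ^ (k + 1)) * (3 ^ n + 1) ≤
      2 * 3 ^ n * ∏ k ∈ Finset.range n, ((3 : ℝ) ^ (k + 1) - 1) := by
  induction n with
  | zero => simp; norm_num
  | succ n ih =>
    rw [Finset.prod_range_succ, Finset.prod_range_succ]
    set P := ∏ k ∈ Finset.range n, (3 : ℝ) ^ (k + 1) with hP
    set Q := ∏ k ∈ Finset.range n, ((3 : ℝ) ^ (k + 1) - 1) with hQ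
    have hP0 : 0 < P := Finset.prod_pos (fun k _ => by positivity)
    have hx : (1 : ℝ) ≤ 3 ^ n := one_le_pow₀ (by norm_num)
    set x : ℝ := 3 ^ n with hxdef
    rw [pow_succ, ← hxdef]
    -- P (x+1) ≤ 2 x Q ; want P (3x) (3x+1) ≤ 2 (3x) Q (3x-1)
    have h1 : P * (x + 1) * (3 * (3 * x - 1)) ≤ 2 * x * Q * (3 * (3 * x - 1)) :=
      mul_le_mul_of_nonneg_right ih (by nlinarith)
    have h2 : P * (x * 3) * (x * 3 + 1) ≤ P * (x + 1) * (3 * (3 * x - 1)) := by
      have : P * (x + 1) * (3 * (3 * x - 1)) - P * (x * 3) * (x * 3 + 1) = P * (3 * x - 3) := by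
        ring
      nlinarith [mul_nonneg hP0.le (by linarith : (0 : ℝ) ≤ 3 * x - 3)]
    calc P * (x * 3) * (x * 3 + 1) ≤ P * (x + 1) * (3 * (3 * x - 1)) := h2
      _ ≤ 2 * x * Q * (3 * (3 * x - 1)) := h1
      _ = 2 * (x * 3) * (Q * (x * 3 - 1)) := by ring

theorem half_le (N : ℕ) : ((Φ N).card : ℝ) ≤ 2 * ((D N).card : ℝ) := by
  rw [card_Φ, card_D]
  have hT : (0 : ℝ) ≤ (Fintype.card (∀ k : Fin N, T k) : ℝ) := Nat.cast_nonneg _
  have hx : (0 : ℝ) < 3 ^ (N + 1) := by positivity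
  have hP0 : 0 < ∏ k ∈ Finset.range (N + 1), (3 : ℝ) ^ (k + 1) :=
    Finset.prod_pos (fun k _ => by positivity)
  have h := prod_bound (N + 1)
  have h2 : (∏ k ∈ Finset.range (N + 1), (3 : ℝ) ^ (k + 1)) ≤
      2 * ∏ k ∈ Finset.range (N + 1), ((3 : ℝ) ^ (k + 1) - 1) := by
    have h3 : (3 : ℝ) ^ (N + 1) * (∏ k ∈ Finset.range (N + 1), (3 : ℝ) ^ (k + 1)) ≤
        3 ^ (N + 1) * (2 * ∏ k ∈ Finset.range (N + 1), ((3 : ℝ) ^ (k + 1) - 1)) := by
      nlinarith
    exact le_of_mul_le_mul_left h3 hx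
  calc _ ≤ (2 * ∏ k ∈ Finset.range (N + 1), ((3 : ℝ) ^ (k + 1) - 1)) *
        (Fintype.card (∀ k : Fin N, T k) : ℝ) := mul_le_mul_of_nonneg_right h2 hT
    _ = _ := by ring

open Classical in
theorem density (N : ℕ) :
    1 / 6 ≤ (((Φ (N + 1)).filter (fun x => x ∈ A)).card : ℝ) / (Φ (N + 1)).card := by
  have h1 := half_le (N + 1)
  have h2 : ((D (N + 1)).card : ℝ) ≤ 3 * (((Φ (N + 1)).filter (fun x => x ∈ A)).card : ℝ) := by
    exact_mod_cast card_D_le N
  have h0 : (0 : ℝ) < (Φ (N + 1)).card := by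
    have := (Φ_nonempty (N + 1)).card_pos
    positivity
  rw [le_div_iff₀ h0]
  linarith

open Classical in
theorem upper : 1 / 6 ≤ upperDensity Φ A := by
  unfold upperDensity
  refine le_limsup_of_frequently_le ?_ ?_
  · apply Eventually.frequently
    filter_upwards [eventually_ge_atTop 1] with N hN
    obtain ⟨N, rfl⟩ : ∃ M, N = M + 1 := ⟨N - 1, by omega⟩
    exact density N
  · refine isBoundedUnder_of ⟨1, fun N => ?_⟩
    have h0 : (0 : ℝ) < (Φ N).card := by
      have := (Φ_nonempty N).card_pos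
      positivity
    rw [div_le_one h0]
    exact Nat.cast_le.2 (Finset.card_le_card (Finset.filter_subset _ _))

instance : Infinite Gp := by
  refine Infinite.of_injective (fun n : ℕ => (⟨⟨fun k => if k = n then 1 else 0, fun _ => 0⟩,
    ⟨n + 1, fun k hk => ⟨?_, rfl⟩⟩⟩ : Gp)) ?_
  · simp only
    rw [if_neg (by omega)]
  · intro n m h
    have h1 := congrFun (congrArg Hat.v (congrArg Subtype.val h)) n
    simp only [if_true] at h1
    by_contra hne
    rw [if_neg hne] at h1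
    have := congrFun h1 0
    simp at this

/-- **Q1 is answered in the negative.** There are a countably infinite square absolutely
continuous group `G` and a set `A ⊆ G` of positive upper Banach density such that
`B ⊙ B ⊄ t⁻¹ A r⁻¹` for every infinite `B ⊆ G` and all `t, r ∈ G`. -/
theorem result : ∃ (G : Type) (_ : Group G), Countable G ∧ Infinite G ∧ SquareAbsCont G ∧
    ∃ A : Set G, PosUpperBanachDensity A ∧
      ∀ B : Set G, B.Infinite → ∀ t r : G, ¬ odot B ⊆ shift t r A :=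
  ⟨Gp, inferInstance, inferInstance, inferInstance, sac, A,
    ⟨Φ, Φ_left, Φ_right, lt_of_lt_of_le (by norm_num) upper⟩, no_infinite⟩

end Pool.Agent.Results.MP_f087b4_co.NoCommonShift
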